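import Pool.Agent.Helper64.FL.StE

set_option autoImplicit false

namespace Pool.Agent.Helper64.FL

open Pool.Agent.Helper64.CT Pool.Agent.Helper64.DT
open Pool.Agent.Helper64.HG (Ovl Model Circ IC HellyCircle ChordModel)

theorem tbs_tb (m i : ℕ) : tb m i = m.testBit i := by
  have h1 : Nat.land (Nat.shiftRight m i) 1 = (m >>> i) % 2 := by
    show (m >>> i) &&& 1 = (m >>> i) % 2
    exact Nat.and_one_is_mod _
  have h2 : m.testBit i = decide ((m >>> i) % 2 = 1) := by
    rw [Nat.testBit_eq_decide_div_mod_eq, Nat.shiftRight_eq_div_pow]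
  unfold tb
  rw [h1, h2]
  rcases Nat.mod_two_eq_zero_or_one (m >>> i) with h | h
  · rw [h]; rfl
  · rw [h]; rfl

theorem tbs_shl (m k : ℕ) : Nat.shiftLeft m k = m <<< k := rfl
theorem tbs_lor (a b : ℕ) : Nat.lor a b = a ||| b := rfl
theorem tbs_land (a b : ℕ) : Nat.land a b = a &&& b := rfl
theorem tbs_xor (a b : ℕ) : Nat.xor a b = a ^^^ b := rfl

theorem tbs_one (i j : ℕ) : (1 <<< i : ℕ).testBit j = decide (i = j) := by
  rw [Nat.testBit_shiftLeft]
  by_cases h : i = j
  · subst h; simp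
  · by_cases h2 : i ≤ j
    · have h3 : j - i ≠ 0 := by omega
      have h4 : Nat.testBit 1 (j - i) = false := by
        rw [Bool.eq_false_iff]
        intro h5
        exact h3 (Nat.testBit_one_eq_true_iff_self_eq_zero.mp h5)
      simp [h, h2, h4]
    · simp [h, h2]

theorem tbs_sb (m i j : ℕ) : tb (sb m i) j = (tb m j || decide (i = j)) := by
  rw [tbs_tb, tbs_tb]
  unfold sb
  rw [tbs_shl, tbs_lor, Nat.testBit_or, tbs_one]

theorem st_TBS : ST_TBS := by
  refine ⟨tbs_sb, ?_, ?_, ?_, ?_, ?_, ?_, ?_, ?_, ?_⟩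
  · intro m k j
    rw [tbs_tb, tbs_tb, tbs_shl, Nat.testBit_shiftLeft]
  · intro a b j
    rw [tbs_tb, tbs_tb, tbs_tb, tbs_lor, Nat.testBit_or]
  · intro a b j
    rw [tbs_tb, tbs_tb, tbs_tb, tbs_land, Nat.testBit_and]
  · intro a b j
    rw [tbs_tb, tbs_tb, tbs_tb, tbs_xor, Nat.testBit_xor]
  · intro j
    rw [tbs_tb, Nat.zero_testBit]
  · intro a b
    unfold sub
    rw [Nat.beq_eq, tbs_land]
    constructor
    · intro h i hi
      rw [tbs_tb] at hi ⊢
      have h2 : (a &&& b).testBit i = true := by rw [h]; exact hi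
      rw [Nat.testBit_and, Bool.and_eq_true] at h2
      exact h2.2
    · intro h
      apply Nat.eq_of_testBit_eq
      intro i
      rw [Nat.testBit_and]
      have h3 := h i
      rw [tbs_tb, tbs_tb] at h3
      cases ha : a.testBit i
      · rfl
      · rw [h3 ha]; rfl
  · intro m i j
    unfold clr
    rw [tbs_tb, tbs_tb, tbs_xor, tbs_land, tbs_shl, Nat.testBit_xor, Nat.testBit_and, tbs_one]
    cases m.testBit j <;> cases decide (i = j) <;> rfl
  · intro n i
    have h : Nat.pred (Nat.shiftLeft 1 n) = 2 ^ n - 1 := by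
      rw [tbs_shl, Nat.one_shiftLeft]; rfl
    rw [tbs_tb, h, Nat.testBit_two_pow_sub_one]
  · intro l i
    induction l with
    | nil =>
      show tb 0 i = _
      rw [tbs_tb, Nat.zero_testBit]; simp
    | cons a l ih =>
      show tb (sb (msk l) a) i = _
      rw [tbs_sb, ih]
      by_cases h1 : i ∈ l <;> by_cases h2 : a = i
      · simp [h1, h2]
      · simp [h1, h2]
      · subst h2; simp
      · have h3 : ¬ i = a := fun h => h2 h.symm
        simp [h1, h2, h3]

end Pool.Agent.Helper64.FL
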